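import Pool.Agent.Q190.LA.Orb

set_option autoImplicit false

/-!
# The group of local automorphisms of a finite-dimensional algebra is a Lie group
-/

namespace Pool.Agent.Results.MP_fbf57d_al.LocAutClosed

open Pool.Agent.Q190.LA

/-- A map `φ` is a local automorphism of the algebra `(A, μ)` if it agrees at every point with some
(linear, bijective, multiplicative) automorphism depending on the point. -/
def IsLocalAut {𝕜 A : Type*} [RCLike 𝕜] [NormedAddCommGroup A] [NormedSpace 𝕜 A]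
    (μ : A →ₗ[𝕜] A →ₗ[𝕜] A) (φ : A → A) : Prop :=
  ∀ x : A, ∃ ψ : A ≃ₗ[𝕜] A, (∀ a b : A, ψ (μ a b) = μ (ψ a) (ψ b)) ∧ φ x = ψ x

/-- Let `𝕜` be the real or complex field and `(A, μ)` a finite-dimensional algebra over it with an
arbitrary bilinear product. The local automorphisms form a closed subgroup of `GL(A)`. -/
theorem result (𝕜 : Type*) [RCLike 𝕜] (A : Type*) [NormedAddCommGroup A] [NormedSpace 𝕜 A]
    [FiniteDimensional 𝕜 A] (μ : A →ₗ[𝕜] A →ₗ[𝕜] A) :
    ∃ S : Subgroup (A →L[𝕜] A)ˣ,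
      (∀ u : (A →L[𝕜] A)ˣ, u ∈ S ↔ IsLocalAut μ (u : A →L[𝕜] A)) ∧
      (∀ φ : A →ₗ[𝕜] A, IsLocalAut μ φ → ∃ u ∈ S, ∀ x, (u : A →L[𝕜] A) x = φ x) ∧
      IsClosed (S : Set (A →L[𝕜] A)ˣ) := by
  let _ : NormedSpace ℝ A := NormedSpace.restrictScalars ℝ 𝕜 A
  have : IsScalarTower ℝ 𝕜 A := RestrictScalars.isScalarTower ℝ 𝕜 A
  have : FiniteDimensional ℝ A := Module.Finite.trans 𝕜 A
  let S : Subgroup (A →L[𝕜] A)ˣ :=
    { carrier := {u | IsLocalAut μ (u : A →L[𝕜] A)}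
      mul_mem' := by
        intro u v hu hv x
        obtain ⟨ψ, h1, h2⟩ := hv x
        obtain ⟨χ, h3, h4⟩ := hu ((v : A →L[𝕜] A) x)
        refine ⟨ψ.trans χ, fun a b => ?_, ?_⟩
        · show χ (ψ (μ a b)) = μ (χ (ψ a)) (χ (ψ b))
          rw [h1, h3]
        · show (u : A →L[𝕜] A) ((v : A →L[𝕜] A) x) = χ (ψ x)
          rw [h4, h2]
      one_mem' := fun x => ⟨LinearEquiv.refl 𝕜 A, fun _ _ => rfl, rfl⟩
      inv_mem' := by
        intro u hu x
        have hux : (u : A →L[𝕜] A) (((u⁻¹ : (A →L[𝕜] A)ˣ) : A →L[𝕜] A) x) = x := by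
          have := congrArg (fun T : A →L[𝕜] A => T x) u.mul_inv
          exact this
        obtain ⟨ψ, h1, h2⟩ := hu (((u⁻¹ : (A →L[𝕜] A)ˣ) : A →L[𝕜] A) x)
        refine ⟨ψ.symm, fun a b => ?_, ?_⟩
        · rw [LinearEquiv.symm_apply_eq, h1, LinearEquiv.apply_symm_apply,
            LinearEquiv.apply_symm_apply]
        · rw [LinearEquiv.eq_symm_apply, ← h2, hux] }
  have hmem : ∀ u : (A →L[𝕜] A)ˣ, u ∈ S → ∀ x : A,
      (u : A →L[𝕜] A) x ∈ MulAction.orbit (autGrp μ) x := by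
    intro u hu x
    obtain ⟨ψ, h1, h2⟩ := hu x
    exact ⟨⟨ψ, h1⟩, h2.symm⟩
  refine ⟨S, fun u => Iff.rfl, ?_, ?_⟩
  · intro φ hφ
    have hinj : Function.Injective φ := by
      rw [injective_iff_map_eq_zero]
      intro x hx
      obtain ⟨ψ, -, h2⟩ := hφ x
      rw [hx] at h2
      exact (map_eq_zero_iff ψ ψ.injective).1 h2.symm
    let e : A ≃L[𝕜] A := (LinearEquiv.ofInjectiveEndo φ hinj).toContinuousLinearEquiv
    refine ⟨ContinuousLinearEquiv.toUnit e, ?_, fun x => rfl⟩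
    intro x
    exact hφ x
  · refine isClosed_of_closure_subset fun u hu => ?_
    intro x
    have hc : ∀ g : autGrp μ, Continuous fun x : A => g • x := fun g =>
      LinearMap.continuous_of_finiteDimensional ((g : A ≃ₗ[𝕜] A) : A →ₗ[𝕜] A)
    have h1 : (u : A →L[𝕜] A) x ∈ closure (MulAction.orbit (autGrp μ) x) := by
      have hcont : Continuous fun v : (A →L[𝕜] A)ˣ => (v : A →L[𝕜] A) x :=
        (ContinuousLinearMap.apply 𝕜 A x).continuous.comp Units.continuous_val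
      exact map_mem_closure (f := fun v : (A →L[𝕜] A)ˣ => (v : A →L[𝕜] A) x) hcont hu
        fun v hv => hmem v hv x
    have h2 : x ∈ closure (MulAction.orbit (autGrp μ) ((u : A →L[𝕜] A) x)) := by
      have hcont : Continuous fun v : (A →L[𝕜] A)ˣ =>
          ((v⁻¹ : (A →L[𝕜] A)ˣ) : A →L[𝕜] A) ((u : A →L[𝕜] A) x) :=
        (ContinuousLinearMap.apply 𝕜 A ((u : A →L[𝕜] A) x)).continuous.comp
          (Units.continuous_val.comp continuous_inv)
      have h3 := map_mem_closure (t := MulAction.orbit (autGrp μ) ((u : A →L[𝕜] A) x)) hcont hu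
        fun v hv => hmem v⁻¹ (S.inv_mem hv) _
      have h4 : ((u⁻¹ : (A →L[𝕜] A)ˣ) : A →L[𝕜] A) ((u : A →L[𝕜] A) x) = x := by
        have := congrArg (fun T : A →L[𝕜] A => T x) u.inv_mul
        exact this
      rwa [h4] at h3
    obtain ⟨⟨ψ, hψ⟩, h⟩ := mem_orbit_of_closure hc (signDet_orbit μ x) h1 h2
    exact ⟨ψ, hψ, h.symm⟩

end Pool.Agent.Results.MP_fbf57d_al.LocAutClosed
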